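import Pool.Agent.helper12.GP.Pm

/-!
Generated: constants of the corner programs of the table E5a.
-/

namespace Pool.Agent.helper12.KB

open Pool.Agent.helper31.IA (Z)
open Pool.Agent.helper12.GP

def p0 : Pm where
  ec := ⟨195957882880, 0, 0, 0⟩
  bc := ⟨0, 0, 0, 0⟩
  nn := ⟨1099511627776, 0, 0, 0⟩
  tj := ⟨4398046511104, 0, 0, 0⟩
  ca := ⟨1099511627776, 0, 0, 0⟩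
  cb := ⟨879662989312, 0, 0, 0⟩
  cc := ⟨0, 0, 0, 0⟩
  ax := ⟨0, 0, 0, 0⟩
  ay := ⟨0, 0, 0, 0⟩
  xa := ⟨0, 0, 0, 0⟩
  C2 := ⟨0, 0, 0, 0⟩
  wr := ⟨0, 0, 0, 0⟩
  wi := ⟨0, 0, 0, 0⟩
  w1 := ⟨0, 0, 0, 0⟩
  h000 := ⟨0, 3411527872, 0, 0⟩
  h001 := ⟨105671284992, 0, 0, 0⟩
  h002 := ⟨51528908928, 0, 0, 0⟩
  h003 := ⟨0, 281613594048, 0, 0⟩
  h010 := ⟨29886160768, 0, 0, 0⟩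
  h011 := ⟨719732441472, 0, 0, 0⟩
  h012 := ⟨0, 2889606929536, 0, 0⟩
  h020 := ⟨78786073792, 0, 0, 0⟩
  h021 := ⟨6678018638784, 0, 0, 0⟩
  h030 := ⟨0, 9730591238208, 0, 0⟩
  h100 := ⟨31382117504, 0, 0, 0⟩
  h101 := ⟨0, 32898329152, 0, 0⟩
  h102 := ⟨0, 8445331072, 0, 0⟩
  h110 := ⟨127743123136, 0, 0, 0⟩
  h111 := ⟨0, 216082085632, 0, 0⟩
  h120 := ⟨0, 110062033856, 0, 0⟩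
  h200 := ⟨0, 10327385024, 0, 0⟩
  h201 := ⟨3055075520, 0, 0, 0⟩
  h210 := ⟨0, 31054752128, 0, 0⟩
  h300 := ⟨1209690112, 0, 0, 0⟩
  h400 := ⟨0, 59837568, 0, 0⟩
  m000 := ⟨1079622303744, 0, 0, 0⟩
  m001 := ⟨0, 17883660288, 0, 0⟩
  m002 := ⟨239570583552, 0, 0, 0⟩
  m010 := ⟨79814328320, 0, 0, 0⟩
  m100 := ⟨126385192960, 0, 0, 0⟩
  m101 := ⟨4509597696, 0, 0, 0⟩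
  m110 := ⟨659808649216, 0, 0, 0⟩
  m200 := ⟨0, 6832914432, 0, 0⟩
  m300 := ⟨114819072, 0, 0, 0⟩
  a00 := ⟨112729587712, 0, 0, 0⟩
  a01 := ⟨155972337664, 0, 0, 0⟩
  a02 := ⟨0, 776918073344, 0, 0⟩
  a03 := ⟨0, 2735490334720, 0, 0⟩
  a10 := ⟨37549506560, 0, 0, 0⟩
  a11 := ⟨432316743680, 0, 0, 0⟩
  b00 := ⟨102469599232, 0, 0, 0⟩
  b01 := ⟨101892882432, 0, 0, 0⟩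
  b02 := ⟨0, 725028503552, 0, 0⟩
  b03 := ⟨0, 1661316759552, 0, 0⟩
  b10 := ⟨86065545216, 0, 0, 0⟩
  b11 := ⟨215858085888, 0, 0, 0⟩
  t00 := ⟨1142345170944, 0, 0, 0⟩
  t01 := ⟨894842044416, 0, 0, 0⟩
  t02 := ⟨0, 9477940051968, 0, 0⟩
  t03 := ⟨28424858173440, 0, 0, 0⟩
  t10 := ⟨0, 1657845841920, 0, 0⟩
  t11 := ⟨12308528758784, 0, 0, 0⟩
  s00 := ⟨1338978795520, 0, 0, 0⟩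
  s01 := ⟨2427306508288, 0, 0, 0⟩
  s02 := ⟨0, 3275199610880, 0, 0⟩
  s03 := ⟨30792233123840, 0, 0, 0⟩
  s10 := ⟨0, 688369762304, 0, 0⟩
  s11 := ⟨0, 2908709322752, 0, 0⟩
  g00 := ⟨0, 0, 0, 0⟩
  g01 := ⟨0, 0, 0, 0⟩
  g10 := ⟨0, 0, 0, 0⟩
  g11 := ⟨0, 0, 0, 0⟩
  f00 := ⟨0, 0, 0, 0⟩
  f01 := ⟨0, 0, 0, 0⟩
  f10 := ⟨0, 0, 0, 0⟩
  f11 := ⟨0, 0, 0, 0⟩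
  l000 := ⟨0, 0, 0, 0⟩
  l001 := ⟨0, 0, 0, 0⟩
  l002 := ⟨0, 0, 0, 0⟩
  l010 := ⟨0, 0, 0, 0⟩
  l011 := ⟨0, 0, 0, 0⟩
  l020 := ⟨0, 0, 0, 0⟩
  l100 := ⟨0, 0, 0, 0⟩
  l101 := ⟨0, 0, 0, 0⟩
  l102 := ⟨0, 0, 0, 0⟩
  l110 := ⟨0, 0, 0, 0⟩
  l111 := ⟨0, 0, 0, 0⟩
  l120 := ⟨0, 0, 0, 0⟩
  l200 := ⟨0, 0, 0, 0⟩
  l201 := ⟨0, 0, 0, 0⟩
  l210 := ⟨0, 0, 0, 0⟩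
  l300 := ⟨0, 0, 0, 0⟩
  l301 := ⟨0, 0, 0, 0⟩
  l310 := ⟨0, 0, 0, 0⟩
  l400 := ⟨0, 0, 0, 0⟩
  l401 := ⟨0, 0, 0, 0⟩
  l410 := ⟨0, 0, 0, 0⟩
  l500 := ⟨0, 0, 0, 0⟩
  l600 := ⟨0, 0, 0, 0⟩
  l700 := ⟨0, 0, 0, 0⟩
  q00 := ⟨0, 0, 0, 0⟩
  q01 := ⟨0, 0, 0, 0⟩
  q02 := ⟨0, 0, 0, 0⟩
  q03 := ⟨0, 0, 0, 0⟩
  q10 := ⟨0, 0, 0, 0⟩
  q11 := ⟨0, 0, 0, 0⟩
  q12 := ⟨0, 0, 0, 0⟩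
  q20 := ⟨0, 0, 0, 0⟩
  q21 := ⟨0, 0, 0, 0⟩
  q30 := ⟨0, 0, 0, 0⟩
  n000 := ⟨0, 0, 0, 0⟩
  n001 := ⟨0, 0, 0, 0⟩
  n002 := ⟨0, 0, 0, 0⟩
  n010 := ⟨0, 0, 0, 0⟩
  n011 := ⟨0, 0, 0, 0⟩
  n020 := ⟨0, 0, 0, 0⟩
  n100 := ⟨0, 0, 0, 0⟩
  n101 := ⟨0, 0, 0, 0⟩
  n110 := ⟨0, 0, 0, 0⟩
  n200 := ⟨0, 0, 0, 0⟩
  n201 := ⟨0, 0, 0, 0⟩
  n210 := ⟨0, 0, 0, 0⟩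
  n300 := ⟨0, 0, 0, 0⟩
  n400 := ⟨0, 0, 0, 0⟩
  n500 := ⟨0, 0, 0, 0⟩
  e00 := ⟨0, 0, 0, 0⟩
  e01 := ⟨0, 0, 0, 0⟩
  e02 := ⟨0, 0, 0, 0⟩
  e03 := ⟨0, 0, 0, 0⟩
  e10 := ⟨0, 0, 0, 0⟩
  e11 := ⟨0, 0, 0, 0⟩
  B1 := 0

def p1 : Pm where
  ec := ⟨195957882880, 0, 0, 0⟩
  bc := ⟨0, 0, 0, 0⟩
  nn := ⟨2199023255552, 0, 0, 0⟩
  tj := ⟨6597069766656, 0, 0, 0⟩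
  ca := ⟨879662989312, 0, 0, 0⟩
  cb := ⟨659814350848, 0, 0, 0⟩
  cc := ⟨0, 0, 0, 0⟩
  ax := ⟨0, 0, 0, 0⟩
  ay := ⟨0, 0, 0, 0⟩
  xa := ⟨0, 0, 0, 0⟩
  C2 := ⟨0, 0, 0, 0⟩
  wr := ⟨0, 0, 0, 0⟩
  wi := ⟨0, 0, 0, 0⟩
  w1 := ⟨0, 0, 0, 0⟩
  h000 := ⟨0, 3411527872, 0, 0⟩
  h001 := ⟨105671284992, 0, 0, 0⟩
  h002 := ⟨51528908928, 0, 0, 0⟩
  h003 := ⟨0, 281613594048, 0, 0⟩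
  h010 := ⟨29886160768, 0, 0, 0⟩
  h011 := ⟨719732441472, 0, 0, 0⟩
  h012 := ⟨0, 2889606929536, 0, 0⟩
  h020 := ⟨78786073792, 0, 0, 0⟩
  h021 := ⟨6678018638784, 0, 0, 0⟩
  h030 := ⟨0, 9730591238208, 0, 0⟩
  h100 := ⟨31382117504, 0, 0, 0⟩
  h101 := ⟨0, 32898329152, 0, 0⟩
  h102 := ⟨0, 8445331072, 0, 0⟩
  h110 := ⟨127743123136, 0, 0, 0⟩
  h111 := ⟨0, 216082085632, 0, 0⟩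
  h120 := ⟨0, 110062033856, 0, 0⟩
  h200 := ⟨0, 10327385024, 0, 0⟩
  h201 := ⟨3055075520, 0, 0, 0⟩
  h210 := ⟨0, 31054752128, 0, 0⟩
  h300 := ⟨1209690112, 0, 0, 0⟩
  h400 := ⟨0, 59837568, 0, 0⟩
  m000 := ⟨1085369876480, 0, 0, 0⟩
  m001 := ⟨0, 6371082240, 0, 0⟩
  m002 := ⟨180973207552, 0, 0, 0⟩
  m010 := ⟨42238345216, 0, 0, 0⟩
  m100 := ⟨119973740544, 0, 0, 0⟩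
  m101 := ⟨5789122560, 0, 0, 0⟩
  m110 := ⟨658802147328, 0, 0, 0⟩
  m200 := ⟨0, 4611833856, 0, 0⟩
  m300 := ⟨0, 135528448, 0, 0⟩
  a00 := ⟨102469599232, 0, 0, 0⟩
  a01 := ⟨101892882432, 0, 0, 0⟩
  a02 := ⟨0, 725028503552, 0, 0⟩
  a03 := ⟨0, 1661316759552, 0, 0⟩
  a10 := ⟨86065545216, 0, 0, 0⟩
  a11 := ⟨215858085888, 0, 0, 0⟩
  b00 := ⟨92967141376, 0, 0, 0⟩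
  b01 := ⟨55562403840, 0, 0, 0⟩
  b02 := ⟨0, 621350027264, 0, 0⟩
  b03 := ⟨0, 911896281088, 0, 0⟩
  b10 := ⟨141523681280, 0, 0, 0⟩
  b11 := ⟨0, 107492081664, 0, 0⟩
  t00 := ⟨1037084983296, 0, 0, 0⟩
  t01 := ⟨842209886208, 0, 0, 0⟩
  t02 := ⟨0, 1153418919936, 0, 0⟩
  t03 := ⟨0, 12280249581568, 0, 0⟩
  t10 := ⟨0, 734308270080, 0, 0⟩
  t11 := ⟨7415324540928, 0, 0, 0⟩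
  s00 := ⟨2481323966464, 0, 0, 0⟩
  s01 := ⟨3322148552704, 0, 0, 0⟩
  s02 := ⟨0, 12753139662848, 0, 0⟩
  s03 := ⟨59217091297280, 0, 0, 0⟩
  s10 := ⟨0, 2346215604224, 0, 0⟩
  s11 := ⟨9399819436032, 0, 0, 0⟩
  g00 := ⟨0, 0, 0, 0⟩
  g01 := ⟨0, 0, 0, 0⟩
  g10 := ⟨0, 0, 0, 0⟩
  g11 := ⟨0, 0, 0, 0⟩
  f00 := ⟨0, 0, 0, 0⟩
  f01 := ⟨0, 0, 0, 0⟩
  f10 := ⟨0, 0, 0, 0⟩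
  f11 := ⟨0, 0, 0, 0⟩
  l000 := ⟨0, 0, 0, 0⟩
  l001 := ⟨0, 0, 0, 0⟩
  l002 := ⟨0, 0, 0, 0⟩
  l010 := ⟨0, 0, 0, 0⟩
  l011 := ⟨0, 0, 0, 0⟩
  l020 := ⟨0, 0, 0, 0⟩
  l100 := ⟨0, 0, 0, 0⟩
  l101 := ⟨0, 0, 0, 0⟩
  l102 := ⟨0, 0, 0, 0⟩
  l110 := ⟨0, 0, 0, 0⟩
  l111 := ⟨0, 0, 0, 0⟩
  l120 := ⟨0, 0, 0, 0⟩
  l200 := ⟨0, 0, 0, 0⟩
  l201 := ⟨0, 0, 0, 0⟩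
  l210 := ⟨0, 0, 0, 0⟩
  l300 := ⟨0, 0, 0, 0⟩
  l301 := ⟨0, 0, 0, 0⟩
  l310 := ⟨0, 0, 0, 0⟩
  l400 := ⟨0, 0, 0, 0⟩
  l401 := ⟨0, 0, 0, 0⟩
  l410 := ⟨0, 0, 0, 0⟩
  l500 := ⟨0, 0, 0, 0⟩
  l600 := ⟨0, 0, 0, 0⟩
  l700 := ⟨0, 0, 0, 0⟩
  q00 := ⟨0, 0, 0, 0⟩
  q01 := ⟨0, 0, 0, 0⟩
  q02 := ⟨0, 0, 0, 0⟩
  q03 := ⟨0, 0, 0, 0⟩
  q10 := ⟨0, 0, 0, 0⟩
  q11 := ⟨0, 0, 0, 0⟩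
  q12 := ⟨0, 0, 0, 0⟩
  q20 := ⟨0, 0, 0, 0⟩
  q21 := ⟨0, 0, 0, 0⟩
  q30 := ⟨0, 0, 0, 0⟩
  n000 := ⟨0, 0, 0, 0⟩
  n001 := ⟨0, 0, 0, 0⟩
  n002 := ⟨0, 0, 0, 0⟩
  n010 := ⟨0, 0, 0, 0⟩
  n011 := ⟨0, 0, 0, 0⟩
  n020 := ⟨0, 0, 0, 0⟩
  n100 := ⟨0, 0, 0, 0⟩
  n101 := ⟨0, 0, 0, 0⟩
  n110 := ⟨0, 0, 0, 0⟩
  n200 := ⟨0, 0, 0, 0⟩
  n201 := ⟨0, 0, 0, 0⟩
  n210 := ⟨0, 0, 0, 0⟩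
  n300 := ⟨0, 0, 0, 0⟩
  n400 := ⟨0, 0, 0, 0⟩
  n500 := ⟨0, 0, 0, 0⟩
  e00 := ⟨0, 0, 0, 0⟩
  e01 := ⟨0, 0, 0, 0⟩
  e02 := ⟨0, 0, 0, 0⟩
  e03 := ⟨0, 0, 0, 0⟩
  e10 := ⟨0, 0, 0, 0⟩
  e11 := ⟨0, 0, 0, 0⟩
  B1 := 0

def p2 : Pm where
  ec := ⟨195957882880, 0, 0, 0⟩
  bc := ⟨0, 0, 0, 0⟩
  nn := ⟨3298534883328, 0, 0, 0⟩
  tj := ⟨8796093022208, 0, 0, 0⟩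
  ca := ⟨659814350848, 0, 0, 0⟩
  cb := ⟨494726545408, 0, 0, 0⟩
  cc := ⟨0, 0, 0, 0⟩
  ax := ⟨0, 0, 0, 0⟩
  ay := ⟨0, 0, 0, 0⟩
  xa := ⟨0, 0, 0, 0⟩
  C2 := ⟨0, 0, 0, 0⟩
  wr := ⟨0, 0, 0, 0⟩
  wi := ⟨0, 0, 0, 0⟩
  w1 := ⟨0, 0, 0, 0⟩
  h000 := ⟨0, 3411527872, 0, 0⟩
  h001 := ⟨105671284992, 0, 0, 0⟩
  h002 := ⟨51528908928, 0, 0, 0⟩
  h003 := ⟨0, 281613594048, 0, 0⟩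
  h010 := ⟨29886160768, 0, 0, 0⟩
  h011 := ⟨719732441472, 0, 0, 0⟩
  h012 := ⟨0, 2889606929536, 0, 0⟩
  h020 := ⟨78786073792, 0, 0, 0⟩
  h021 := ⟨6678018638784, 0, 0, 0⟩
  h030 := ⟨0, 9730591238208, 0, 0⟩
  h100 := ⟨31382117504, 0, 0, 0⟩
  h101 := ⟨0, 32898329152, 0, 0⟩
  h102 := ⟨0, 8445331072, 0, 0⟩
  h110 := ⟨127743123136, 0, 0, 0⟩
  h111 := ⟨0, 216082085632, 0, 0⟩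
  h120 := ⟨0, 110062033856, 0, 0⟩
  h200 := ⟨0, 10327385024, 0, 0⟩
  h201 := ⟨3055075520, 0, 0, 0⟩
  h210 := ⟨0, 31054752128, 0, 0⟩
  h300 := ⟨1209690112, 0, 0, 0⟩
  h400 := ⟨0, 59837568, 0, 0⟩
  m000 := ⟨1090258665472, 0, 0, 0⟩
  m001 := ⟨0, 2201681920, 0, 0⟩
  m002 := ⟨162116206592, 0, 0, 0⟩
  m010 := ⟨21281177600, 0, 0, 0⟩
  m100 := ⟨113512349696, 0, 0, 0⟩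
  m101 := ⟨4450549760, 0, 0, 0⟩
  m110 := ⟨659003211776, 0, 0, 0⟩
  m200 := ⟨0, 1616183296, 0, 0⟩
  m300 := ⟨0, 577568768, 0, 0⟩
  a00 := ⟨92967141376, 0, 0, 0⟩
  a01 := ⟨55562403840, 0, 0, 0⟩
  a02 := ⟨0, 621350027264, 0, 0⟩
  a03 := ⟨0, 911896281088, 0, 0⟩
  a10 := ⟨141523681280, 0, 0, 0⟩
  a11 := ⟨0, 107492081664, 0, 0⟩
  b00 := ⟨84192002048, 0, 0, 0⟩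
  b01 := ⟨15743385600, 0, 0, 0⟩
  b02 := ⟨0, 478902222848, 0, 0⟩
  b03 := ⟨0, 380070723584, 0, 0⟩
  b10 := ⟨186849034240, 0, 0, 0⟩
  b11 := ⟨0, 383199346688, 0, 0⟩
  t00 := ⟨941980254208, 0, 0, 0⟩
  t01 := ⟨943293464576, 0, 0, 0⟩
  t02 := ⟨988450652160, 0, 0, 0⟩
  t03 := ⟨0, 13143750541312, 0, 0⟩
  t10 := ⟨0, 45730758656, 0, 0⟩
  t11 := ⟨7135387516928, 0, 0, 0⟩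
  s00 := ⟨3518408949760, 0, 0, 0⟩
  s01 := ⟨4164358438912, 0, 0, 0⟩
  s02 := ⟨0, 13906558582784, 0, 0⟩
  s03 := ⟨46936841715712, 0, 0, 0⟩
  s10 := ⟨0, 3080523874304, 0, 0⟩
  s11 := ⟨16815143976960, 0, 0, 0⟩
  g00 := ⟨0, 0, 0, 0⟩
  g01 := ⟨0, 0, 0, 0⟩
  g10 := ⟨0, 0, 0, 0⟩
  g11 := ⟨0, 0, 0, 0⟩
  f00 := ⟨0, 0, 0, 0⟩
  f01 := ⟨0, 0, 0, 0⟩
  f10 := ⟨0, 0, 0, 0⟩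
  f11 := ⟨0, 0, 0, 0⟩
  l000 := ⟨0, 0, 0, 0⟩
  l001 := ⟨0, 0, 0, 0⟩
  l002 := ⟨0, 0, 0, 0⟩
  l010 := ⟨0, 0, 0, 0⟩
  l011 := ⟨0, 0, 0, 0⟩
  l020 := ⟨0, 0, 0, 0⟩
  l100 := ⟨0, 0, 0, 0⟩
  l101 := ⟨0, 0, 0, 0⟩
  l102 := ⟨0, 0, 0, 0⟩
  l110 := ⟨0, 0, 0, 0⟩
  l111 := ⟨0, 0, 0, 0⟩
  l120 := ⟨0, 0, 0, 0⟩
  l200 := ⟨0, 0, 0, 0⟩
  l201 := ⟨0, 0, 0, 0⟩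
  l210 := ⟨0, 0, 0, 0⟩
  l300 := ⟨0, 0, 0, 0⟩
  l301 := ⟨0, 0, 0, 0⟩
  l310 := ⟨0, 0, 0, 0⟩
  l400 := ⟨0, 0, 0, 0⟩
  l401 := ⟨0, 0, 0, 0⟩
  l410 := ⟨0, 0, 0, 0⟩
  l500 := ⟨0, 0, 0, 0⟩
  l600 := ⟨0, 0, 0, 0⟩
  l700 := ⟨0, 0, 0, 0⟩
  q00 := ⟨0, 0, 0, 0⟩
  q01 := ⟨0, 0, 0, 0⟩
  q02 := ⟨0, 0, 0, 0⟩
  q03 := ⟨0, 0, 0, 0⟩
  q10 := ⟨0, 0, 0, 0⟩
  q11 := ⟨0, 0, 0, 0⟩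
  q12 := ⟨0, 0, 0, 0⟩
  q20 := ⟨0, 0, 0, 0⟩
  q21 := ⟨0, 0, 0, 0⟩
  q30 := ⟨0, 0, 0, 0⟩
  n000 := ⟨0, 0, 0, 0⟩
  n001 := ⟨0, 0, 0, 0⟩
  n002 := ⟨0, 0, 0, 0⟩
  n010 := ⟨0, 0, 0, 0⟩
  n011 := ⟨0, 0, 0, 0⟩
  n020 := ⟨0, 0, 0, 0⟩
  n100 := ⟨0, 0, 0, 0⟩
  n101 := ⟨0, 0, 0, 0⟩
  n110 := ⟨0, 0, 0, 0⟩
  n200 := ⟨0, 0, 0, 0⟩
  n201 := ⟨0, 0, 0, 0⟩
  n210 := ⟨0, 0, 0, 0⟩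
  n300 := ⟨0, 0, 0, 0⟩
  n400 := ⟨0, 0, 0, 0⟩
  n500 := ⟨0, 0, 0, 0⟩
  e00 := ⟨0, 0, 0, 0⟩
  e01 := ⟨0, 0, 0, 0⟩
  e02 := ⟨0, 0, 0, 0⟩
  e03 := ⟨0, 0, 0, 0⟩
  e10 := ⟨0, 0, 0, 0⟩
  e11 := ⟨0, 0, 0, 0⟩
  B1 := 0

def p3 : Pm where
  ec := ⟨195957882880, 0, 0, 0⟩
  bc := ⟨0, 0, 0, 0⟩
  nn := ⟨4398046511104, 0, 0, 0⟩
  tj := ⟨10995116277760, 0, 0, 0⟩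
  ca := ⟨494726545408, 0, 0, 0⟩
  cb := ⟨384936443904, 0, 0, 0⟩
  cc := ⟨0, 0, 0, 0⟩
  ax := ⟨0, 0, 0, 0⟩
  ay := ⟨0, 0, 0, 0⟩
  xa := ⟨0, 0, 0, 0⟩
  C2 := ⟨0, 0, 0, 0⟩
  wr := ⟨0, 0, 0, 0⟩
  wi := ⟨0, 0, 0, 0⟩
  w1 := ⟨0, 0, 0, 0⟩
  h000 := ⟨0, 3411527872, 0, 0⟩
  h001 := ⟨105671284992, 0, 0, 0⟩
  h002 := ⟨51528908928, 0, 0, 0⟩
  h003 := ⟨0, 281613594048, 0, 0⟩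
  h010 := ⟨29886160768, 0, 0, 0⟩
  h011 := ⟨719732441472, 0, 0, 0⟩
  h012 := ⟨0, 2889606929536, 0, 0⟩
  h020 := ⟨78786073792, 0, 0, 0⟩
  h021 := ⟨6678018638784, 0, 0, 0⟩
  h030 := ⟨0, 9730591238208, 0, 0⟩
  h100 := ⟨31382117504, 0, 0, 0⟩
  h101 := ⟨0, 32898329152, 0, 0⟩
  h102 := ⟨0, 8445331072, 0, 0⟩
  h110 := ⟨127743123136, 0, 0, 0⟩
  h111 := ⟨0, 216082085632, 0, 0⟩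
  h120 := ⟨0, 110062033856, 0, 0⟩
  h200 := ⟨0, 10327385024, 0, 0⟩
  h201 := ⟨3055075520, 0, 0, 0⟩
  h210 := ⟨0, 31054752128, 0, 0⟩
  h300 := ⟨1209690112, 0, 0, 0⟩
  h400 := ⟨0, 59837568, 0, 0⟩
  m000 := ⟨1093648056320, 0, 0, 0⟩
  m001 := ⟨0, 898957312, 0, 0⟩
  m002 := ⟨159534678016, 0, 0, 0⟩
  m010 := ⟨6608388096, 0, 0, 0⟩
  m100 := ⟨108255772672, 0, 0, 0⟩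
  m101 := ⟨3594780672, 0, 0, 0⟩
  m110 := ⟨659185270784, 0, 0, 0⟩
  m200 := ⟨1242562560, 0, 0, 0⟩
  m300 := ⟨0, 1065549824, 0, 0⟩
  a00 := ⟨84192002048, 0, 0, 0⟩
  a01 := ⟨15743385600, 0, 0, 0⟩
  a02 := ⟨0, 478902222848, 0, 0⟩
  a03 := ⟨0, 380070723584, 0, 0⟩
  a10 := ⟨186849034240, 0, 0, 0⟩
  a11 := ⟨0, 383199346688, 0, 0⟩
  b00 := ⟨76066324480, 0, 0, 0⟩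
  b01 := ⟨0, 12338593792, 0, 0⟩
  b02 := ⟨0, 395511595008, 0, 0⟩
  b03 := ⟨303136833536, 0, 0, 0⟩
  b10 := ⟨221243637760, 0, 0, 0⟩
  b11 := ⟨0, 540100395008, 0, 0⟩
  t00 := ⟨854233776128, 0, 0, 0⟩
  t01 := ⟨879642148864, 0, 0, 0⟩
  t02 := ⟨3949379649536, 0, 0, 0⟩
  t03 := ⟨0, 14355845414912, 0, 0⟩
  t10 := ⟨510433558528, 0, 0, 0⟩
  t11 := ⟨7520490881024, 0, 0, 0⟩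
  s00 := ⟨4460389203968, 0, 0, 0⟩
  s01 := ⟨5107651903488, 0, 0, 0⟩
  s02 := ⟨0, 12918107930624, 0, 0⟩
  s03 := ⟨33793091174400, 0, 0, 0⟩
  s10 := ⟨0, 3126254632960, 0, 0⟩
  s11 := ⟨23950531493888, 0, 0, 0⟩
  g00 := ⟨0, 0, 0, 0⟩
  g01 := ⟨0, 0, 0, 0⟩
  g10 := ⟨0, 0, 0, 0⟩
  g11 := ⟨0, 0, 0, 0⟩
  f00 := ⟨0, 0, 0, 0⟩
  f01 := ⟨0, 0, 0, 0⟩
  f10 := ⟨0, 0, 0, 0⟩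
  f11 := ⟨0, 0, 0, 0⟩
  l000 := ⟨0, 0, 0, 0⟩
  l001 := ⟨0, 0, 0, 0⟩
  l002 := ⟨0, 0, 0, 0⟩
  l010 := ⟨0, 0, 0, 0⟩
  l011 := ⟨0, 0, 0, 0⟩
  l020 := ⟨0, 0, 0, 0⟩
  l100 := ⟨0, 0, 0, 0⟩
  l101 := ⟨0, 0, 0, 0⟩
  l102 := ⟨0, 0, 0, 0⟩
  l110 := ⟨0, 0, 0, 0⟩
  l111 := ⟨0, 0, 0, 0⟩
  l120 := ⟨0, 0, 0, 0⟩
  l200 := ⟨0, 0, 0, 0⟩
  l201 := ⟨0, 0, 0, 0⟩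
  l210 := ⟨0, 0, 0, 0⟩
  l300 := ⟨0, 0, 0, 0⟩
  l301 := ⟨0, 0, 0, 0⟩
  l310 := ⟨0, 0, 0, 0⟩
  l400 := ⟨0, 0, 0, 0⟩
  l401 := ⟨0, 0, 0, 0⟩
  l410 := ⟨0, 0, 0, 0⟩
  l500 := ⟨0, 0, 0, 0⟩
  l600 := ⟨0, 0, 0, 0⟩
  l700 := ⟨0, 0, 0, 0⟩
  q00 := ⟨0, 0, 0, 0⟩
  q01 := ⟨0, 0, 0, 0⟩
  q02 := ⟨0, 0, 0, 0⟩
  q03 := ⟨0, 0, 0, 0⟩
  q10 := ⟨0, 0, 0, 0⟩
  q11 := ⟨0, 0, 0, 0⟩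
  q12 := ⟨0, 0, 0, 0⟩
  q20 := ⟨0, 0, 0, 0⟩
  q21 := ⟨0, 0, 0, 0⟩
  q30 := ⟨0, 0, 0, 0⟩
  n000 := ⟨0, 0, 0, 0⟩
  n001 := ⟨0, 0, 0, 0⟩
  n002 := ⟨0, 0, 0, 0⟩
  n010 := ⟨0, 0, 0, 0⟩
  n011 := ⟨0, 0, 0, 0⟩
  n020 := ⟨0, 0, 0, 0⟩
  n100 := ⟨0, 0, 0, 0⟩
  n101 := ⟨0, 0, 0, 0⟩
  n110 := ⟨0, 0, 0, 0⟩
  n200 := ⟨0, 0, 0, 0⟩
  n201 := ⟨0, 0, 0, 0⟩
  n210 := ⟨0, 0, 0, 0⟩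
  n300 := ⟨0, 0, 0, 0⟩
  n400 := ⟨0, 0, 0, 0⟩
  n500 := ⟨0, 0, 0, 0⟩
  e00 := ⟨0, 0, 0, 0⟩
  e01 := ⟨0, 0, 0, 0⟩
  e02 := ⟨0, 0, 0, 0⟩
  e03 := ⟨0, 0, 0, 0⟩
  e10 := ⟨0, 0, 0, 0⟩
  e11 := ⟨0, 0, 0, 0⟩
  B1 := 0

def p4 : Pm where
  ec := ⟨195957882880, 0, 0, 0⟩
  bc := ⟨0, 0, 0, 0⟩
  nn := ⟨5497558138880, 0, 0, 0⟩
  tj := ⟨13194139533312, 0, 0, 0⟩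
  ca := ⟨384936443904, 0, 0, 0⟩
  cb := ⟨329907175424, 0, 0, 0⟩
  cc := ⟨0, 0, 0, 0⟩
  ax := ⟨0, 0, 0, 0⟩
  ay := ⟨0, 0, 0, 0⟩
  xa := ⟨0, 0, 0, 0⟩
  C2 := ⟨0, 0, 0, 0⟩
  wr := ⟨0, 0, 0, 0⟩
  wi := ⟨0, 0, 0, 0⟩
  w1 := ⟨0, 0, 0, 0⟩
  h000 := ⟨0, 3411527872, 0, 0⟩
  h001 := ⟨105671284992, 0, 0, 0⟩
  h002 := ⟨51528908928, 0, 0, 0⟩
  h003 := ⟨0, 281613594048, 0, 0⟩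
  h010 := ⟨29886160768, 0, 0, 0⟩
  h011 := ⟨719732441472, 0, 0, 0⟩
  h012 := ⟨0, 2889606929536, 0, 0⟩
  h020 := ⟨78786073792, 0, 0, 0⟩
  h021 := ⟨6678018638784, 0, 0, 0⟩
  h030 := ⟨0, 9730591238208, 0, 0⟩
  h100 := ⟨31382117504, 0, 0, 0⟩
  h101 := ⟨0, 32898329152, 0, 0⟩
  h102 := ⟨0, 8445331072, 0, 0⟩
  h110 := ⟨127743123136, 0, 0, 0⟩
  h111 := ⟨0, 216082085632, 0, 0⟩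
  h120 := ⟨0, 110062033856, 0, 0⟩
  h200 := ⟨0, 10327385024, 0, 0⟩
  h201 := ⟨3055075520, 0, 0, 0⟩
  h210 := ⟨0, 31054752128, 0, 0⟩
  h300 := ⟨1209690112, 0, 0, 0⟩
  h400 := ⟨0, 59837568, 0, 0⟩
  m000 := ⟨1095868743680, 0, 0, 0⟩
  m001 := ⟨0, 1203372032, 0, 0⟩
  m002 := ⟨151383572480, 0, 0, 0⟩
  m010 := ⟨0, 2420047872, 0, 0⟩
  m100 := ⟨104487583744, 0, 0, 0⟩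
  m101 := ⟨3739484160, 0, 0, 0⟩
  m110 := ⟨658243715072, 0, 0, 0⟩
  m200 := ⟨3554934784, 0, 0, 0⟩
  m300 := ⟨0, 1510408192, 0, 0⟩
  a00 := ⟨76066324480, 0, 0, 0⟩
  a01 := ⟨0, 12338593792, 0, 0⟩
  a02 := ⟨0, 395511595008, 0, 0⟩
  a03 := ⟨303136833536, 0, 0, 0⟩
  a10 := ⟨221243637760, 0, 0, 0⟩
  a11 := ⟨0, 540100395008, 0, 0⟩
  b00 := ⟨68424040448, 0, 0, 0⟩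
  b01 := ⟨0, 35724591104, 0, 0⟩
  b02 := ⟨0, 219008991232, 0, 0⟩
  b03 := ⟨502081126400, 0, 0, 0⟩
  b10 := ⟨255190040576, 0, 0, 0⟩
  b11 := ⟨0, 698777665536, 0, 0⟩
  t00 := ⟨773459869696, 0, 0, 0⟩
  t01 := ⟨765377642496, 0, 0, 0⟩
  t02 := ⟨6178939731968, 0, 0, 0⟩
  t03 := ⟨0, 9254394724352, 0, 0⟩
  t10 := ⟨957092921344, 0, 0, 0⟩
  t11 := ⟨9871372779520, 0, 0, 0⟩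
  s00 := ⟨5314622980096, 0, 0, 0⟩
  s01 := ⟨5987294052352, 0, 0, 0⟩
  s02 := ⟨0, 8968728281088, 0, 0⟩
  s03 := ⟨19437245759488, 0, 0, 0⟩
  s10 := ⟨0, 2615821074432, 0, 0⟩
  s11 := ⟨31471022374912, 0, 0, 0⟩
  g00 := ⟨0, 0, 0, 0⟩
  g01 := ⟨0, 0, 0, 0⟩
  g10 := ⟨0, 0, 0, 0⟩
  g11 := ⟨0, 0, 0, 0⟩
  f00 := ⟨0, 0, 0, 0⟩
  f01 := ⟨0, 0, 0, 0⟩
  f10 := ⟨0, 0, 0, 0⟩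
  f11 := ⟨0, 0, 0, 0⟩
  l000 := ⟨0, 0, 0, 0⟩
  l001 := ⟨0, 0, 0, 0⟩
  l002 := ⟨0, 0, 0, 0⟩
  l010 := ⟨0, 0, 0, 0⟩
  l011 := ⟨0, 0, 0, 0⟩
  l020 := ⟨0, 0, 0, 0⟩
  l100 := ⟨0, 0, 0, 0⟩
  l101 := ⟨0, 0, 0, 0⟩
  l102 := ⟨0, 0, 0, 0⟩
  l110 := ⟨0, 0, 0, 0⟩
  l111 := ⟨0, 0, 0, 0⟩
  l120 := ⟨0, 0, 0, 0⟩
  l200 := ⟨0, 0, 0, 0⟩
  l201 := ⟨0, 0, 0, 0⟩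
  l210 := ⟨0, 0, 0, 0⟩
  l300 := ⟨0, 0, 0, 0⟩
  l301 := ⟨0, 0, 0, 0⟩
  l310 := ⟨0, 0, 0, 0⟩
  l400 := ⟨0, 0, 0, 0⟩
  l401 := ⟨0, 0, 0, 0⟩
  l410 := ⟨0, 0, 0, 0⟩
  l500 := ⟨0, 0, 0, 0⟩
  l600 := ⟨0, 0, 0, 0⟩
  l700 := ⟨0, 0, 0, 0⟩
  q00 := ⟨0, 0, 0, 0⟩
  q01 := ⟨0, 0, 0, 0⟩
  q02 := ⟨0, 0, 0, 0⟩
  q03 := ⟨0, 0, 0, 0⟩
  q10 := ⟨0, 0, 0, 0⟩
  q11 := ⟨0, 0, 0, 0⟩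
  q12 := ⟨0, 0, 0, 0⟩
  q20 := ⟨0, 0, 0, 0⟩
  q21 := ⟨0, 0, 0, 0⟩
  q30 := ⟨0, 0, 0, 0⟩
  n000 := ⟨0, 0, 0, 0⟩
  n001 := ⟨0, 0, 0, 0⟩
  n002 := ⟨0, 0, 0, 0⟩
  n010 := ⟨0, 0, 0, 0⟩
  n011 := ⟨0, 0, 0, 0⟩
  n020 := ⟨0, 0, 0, 0⟩
  n100 := ⟨0, 0, 0, 0⟩
  n101 := ⟨0, 0, 0, 0⟩
  n110 := ⟨0, 0, 0, 0⟩
  n200 := ⟨0, 0, 0, 0⟩
  n201 := ⟨0, 0, 0, 0⟩
  n210 := ⟨0, 0, 0, 0⟩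
  n300 := ⟨0, 0, 0, 0⟩
  n400 := ⟨0, 0, 0, 0⟩
  n500 := ⟨0, 0, 0, 0⟩
  e00 := ⟨0, 0, 0, 0⟩
  e01 := ⟨0, 0, 0, 0⟩
  e02 := ⟨0, 0, 0, 0⟩
  e03 := ⟨0, 0, 0, 0⟩
  e10 := ⟨0, 0, 0, 0⟩
  e11 := ⟨0, 0, 0, 0⟩
  B1 := 0

def p5 : Pm where
  ec := ⟨195957882880, 0, 0, 0⟩
  bc := ⟨0, 0, 0, 0⟩
  nn := ⟨6597069766656, 0, 0, 0⟩
  tj := ⟨15393162788864, 0, 0, 0⟩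
  ca := ⟨329907175424, 0, 0, 0⟩
  cb := ⟨0, 0, 0, 0⟩
  cc := ⟨0, 0, 0, 0⟩
  ax := ⟨2308974418944, 0, 0, 0⟩
  ay := ⟨91625969664, 0, 0, 0⟩
  xa := ⟨4288095348224, 0, 0, 0⟩
  C2 := ⟨1327712154624, 0, 0, 0⟩
  wr := ⟨0, 0, 0, 0⟩
  wi := ⟨0, 0, 0, 0⟩
  w1 := ⟨0, 0, 0, 0⟩
  h000 := ⟨0, 3411527872, 0, 0⟩
  h001 := ⟨105671284992, 0, 0, 0⟩
  h002 := ⟨51528908928, 0, 0, 0⟩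
  h003 := ⟨0, 281613594048, 0, 0⟩
  h010 := ⟨29886160768, 0, 0, 0⟩
  h011 := ⟨719732441472, 0, 0, 0⟩
  h012 := ⟨0, 2889606929536, 0, 0⟩
  h020 := ⟨78786073792, 0, 0, 0⟩
  h021 := ⟨6678018638784, 0, 0, 0⟩
  h030 := ⟨0, 9730591238208, 0, 0⟩
  h100 := ⟨31382117504, 0, 0, 0⟩
  h101 := ⟨0, 32898329152, 0, 0⟩
  h102 := ⟨0, 8445331072, 0, 0⟩
  h110 := ⟨127743123136, 0, 0, 0⟩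
  h111 := ⟨0, 216082085632, 0, 0⟩
  h120 := ⟨0, 110062033856, 0, 0⟩
  h200 := ⟨0, 10327385024, 0, 0⟩
  h201 := ⟨3055075520, 0, 0, 0⟩
  h210 := ⟨0, 31054752128, 0, 0⟩
  h300 := ⟨1209690112, 0, 0, 0⟩
  h400 := ⟨0, 59837568, 0, 0⟩
  m000 := ⟨1098072195072, 0, 0, 0⟩
  m001 := ⟨0, 3229220864, 0, 0⟩
  m002 := ⟨101451759616, 0, 0, 0⟩
  m010 := ⟨0, 64408977408, 0, 0⟩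
  m100 := ⟨98815705088, 0, 0, 0⟩
  m101 := ⟨5847121920, 0, 0, 0⟩
  m110 := ⟨682990043136, 0, 0, 0⟩
  m200 := ⟨8167882752, 0, 0, 0⟩
  m300 := ⟨0, 2583101440, 0, 0⟩
  a00 := ⟨68424040448, 0, 0, 0⟩
  a01 := ⟨0, 35724591104, 0, 0⟩
  a02 := ⟨0, 219008991232, 0, 0⟩
  a03 := ⟨502081126400, 0, 0, 0⟩
  a10 := ⟨255190040576, 0, 0, 0⟩
  a11 := ⟨0, 698777665536, 0, 0⟩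
  b00 := ⟨0, 0, 0, 0⟩
  b01 := ⟨0, 0, 0, 0⟩
  b02 := ⟨0, 0, 0, 0⟩
  b03 := ⟨0, 0, 0, 0⟩
  b10 := ⟨0, 0, 0, 0⟩
  b11 := ⟨0, 0, 0, 0⟩
  t00 := ⟨697518260224, 0, 0, 0⟩
  t01 := ⟨637706960896, 0, 0, 0⟩
  t02 := ⟨7872622690304, 0, 0, 0⟩
  t03 := ⟨470682828800, 0, 0, 0⟩
  t10 := ⟨1376383795200, 0, 0, 0⟩
  t11 := ⟨12201007251456, 0, 0, 0⟩
  s00 := ⟨6088082849792, 0, 0, 0⟩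
  s01 := ⟨6752671694848, 0, 0, 0⟩
  s02 := ⟨0, 2789788549120, 0, 0⟩
  s03 := ⟨10182851035136, 0, 0, 0⟩
  s10 := ⟨0, 1658728153088, 0, 0⟩
  s11 := ⟨41342395154432, 0, 0, 0⟩
  g00 := ⟨0, 0, 0, 0⟩
  g01 := ⟨0, 0, 0, 0⟩
  g10 := ⟨0, 0, 0, 0⟩
  g11 := ⟨0, 0, 0, 0⟩
  f00 := ⟨0, 0, 0, 0⟩
  f01 := ⟨0, 0, 0, 0⟩
  f10 := ⟨0, 0, 0, 0⟩
  f11 := ⟨0, 0, 0, 0⟩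
  l000 := ⟨0, 0, 0, 0⟩
  l001 := ⟨0, 0, 0, 0⟩
  l002 := ⟨0, 0, 0, 0⟩
  l010 := ⟨0, 0, 0, 0⟩
  l011 := ⟨0, 0, 0, 0⟩
  l020 := ⟨0, 0, 0, 0⟩
  l100 := ⟨0, 0, 0, 0⟩
  l101 := ⟨0, 0, 0, 0⟩
  l102 := ⟨0, 0, 0, 0⟩
  l110 := ⟨0, 0, 0, 0⟩
  l111 := ⟨0, 0, 0, 0⟩
  l120 := ⟨0, 0, 0, 0⟩
  l200 := ⟨0, 0, 0, 0⟩
  l201 := ⟨0, 0, 0, 0⟩
  l210 := ⟨0, 0, 0, 0⟩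
  l300 := ⟨0, 0, 0, 0⟩
  l301 := ⟨0, 0, 0, 0⟩
  l310 := ⟨0, 0, 0, 0⟩
  l400 := ⟨0, 0, 0, 0⟩
  l401 := ⟨0, 0, 0, 0⟩
  l410 := ⟨0, 0, 0, 0⟩
  l500 := ⟨0, 0, 0, 0⟩
  l600 := ⟨0, 0, 0, 0⟩
  l700 := ⟨0, 0, 0, 0⟩
  q00 := ⟨0, 0, 0, 0⟩
  q01 := ⟨0, 0, 0, 0⟩
  q02 := ⟨0, 0, 0, 0⟩
  q03 := ⟨0, 0, 0, 0⟩
  q10 := ⟨0, 0, 0, 0⟩
  q11 := ⟨0, 0, 0, 0⟩
  q12 := ⟨0, 0, 0, 0⟩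
  q20 := ⟨0, 0, 0, 0⟩
  q21 := ⟨0, 0, 0, 0⟩
  q30 := ⟨0, 0, 0, 0⟩
  n000 := ⟨0, 0, 0, 0⟩
  n001 := ⟨0, 0, 0, 0⟩
  n002 := ⟨0, 0, 0, 0⟩
  n010 := ⟨0, 0, 0, 0⟩
  n011 := ⟨0, 0, 0, 0⟩
  n020 := ⟨0, 0, 0, 0⟩
  n100 := ⟨0, 0, 0, 0⟩
  n101 := ⟨0, 0, 0, 0⟩
  n110 := ⟨0, 0, 0, 0⟩
  n200 := ⟨0, 0, 0, 0⟩
  n201 := ⟨0, 0, 0, 0⟩
  n210 := ⟨0, 0, 0, 0⟩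
  n300 := ⟨0, 0, 0, 0⟩
  n400 := ⟨0, 0, 0, 0⟩
  n500 := ⟨0, 0, 0, 0⟩
  e00 := ⟨0, 0, 0, 0⟩
  e01 := ⟨0, 0, 0, 0⟩
  e02 := ⟨0, 0, 0, 0⟩
  e03 := ⟨0, 0, 0, 0⟩
  e10 := ⟨0, 0, 0, 0⟩
  e11 := ⟨0, 0, 0, 0⟩
  B1 := 659706347520

def pF : Pm where
  ec := ⟨195957882880, 0, 0, 0⟩
  bc := ⟨0, 0, 0, 0⟩
  nn := ⟨0, 0, 0, 0⟩
  tj := ⟨2199023255552, 0, 0, 0⟩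
  ca := ⟨1099511627776, 0, 0, 0⟩
  cb := ⟨0, 0, 0, 0⟩
  cc := ⟨879662989312, 0, 0, 0⟩
  ax := ⟨0, 0, 0, 0⟩
  ay := ⟨0, 0, 0, 0⟩
  xa := ⟨0, 0, 0, 0⟩
  C2 := ⟨0, 0, 0, 0⟩
  wr := ⟨0, 0, 0, 0⟩
  wi := ⟨0, 0, 0, 0⟩
  w1 := ⟨0, 0, 0, 0⟩
  h000 := ⟨0, 3411527872, 0, 0⟩
  h001 := ⟨105671284992, 0, 0, 0⟩
  h002 := ⟨51528908928, 0, 0, 0⟩
  h003 := ⟨0, 281613594048, 0, 0⟩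
  h010 := ⟨29886160768, 0, 0, 0⟩
  h011 := ⟨719732441472, 0, 0, 0⟩
  h012 := ⟨0, 2889606929536, 0, 0⟩
  h020 := ⟨78786073792, 0, 0, 0⟩
  h021 := ⟨6678018638784, 0, 0, 0⟩
  h030 := ⟨0, 9730591238208, 0, 0⟩
  h100 := ⟨31382117504, 0, 0, 0⟩
  h101 := ⟨0, 32898329152, 0, 0⟩
  h102 := ⟨0, 8445331072, 0, 0⟩
  h110 := ⟨127743123136, 0, 0, 0⟩
  h111 := ⟨0, 216082085632, 0, 0⟩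
  h120 := ⟨0, 110062033856, 0, 0⟩
  h200 := ⟨0, 10327385024, 0, 0⟩
  h201 := ⟨3055075520, 0, 0, 0⟩
  h210 := ⟨0, 31054752128, 0, 0⟩
  h300 := ⟨1209690112, 0, 0, 0⟩
  h400 := ⟨0, 59837568, 0, 0⟩
  m000 := ⟨0, 0, 0, 0⟩
  m001 := ⟨0, 0, 0, 0⟩
  m002 := ⟨0, 0, 0, 0⟩
  m010 := ⟨0, 0, 0, 0⟩
  m100 := ⟨0, 0, 0, 0⟩
  m101 := ⟨0, 0, 0, 0⟩
  m110 := ⟨0, 0, 0, 0⟩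
  m200 := ⟨0, 0, 0, 0⟩
  m300 := ⟨0, 0, 0, 0⟩
  a00 := ⟨112729587712, 0, 0, 0⟩
  a01 := ⟨155972337664, 0, 0, 0⟩
  a02 := ⟨0, 776918073344, 0, 0⟩
  a03 := ⟨0, 2735490334720, 0, 0⟩
  a10 := ⟨37549506560, 0, 0, 0⟩
  a11 := ⟨432316743680, 0, 0, 0⟩
  b00 := ⟨0, 0, 0, 0⟩
  b01 := ⟨0, 0, 0, 0⟩
  b02 := ⟨0, 0, 0, 0⟩
  b03 := ⟨0, 0, 0, 0⟩
  b10 := ⟨0, 0, 0, 0⟩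
  b11 := ⟨0, 0, 0, 0⟩
  t00 := ⟨1338978795520, 0, 0, 0⟩
  t01 := ⟨2427306508288, 0, 0, 0⟩
  t02 := ⟨0, 3275199610880, 0, 0⟩
  t03 := ⟨30792233123840, 0, 0, 0⟩
  t10 := ⟨0, 688369762304, 0, 0⟩
  t11 := ⟨0, 2908709322752, 0, 0⟩
  s00 := ⟨0, 0, 0, 0⟩
  s01 := ⟨0, 0, 0, 0⟩
  s02 := ⟨0, 0, 0, 0⟩
  s03 := ⟨0, 0, 0, 0⟩
  s10 := ⟨0, 0, 0, 0⟩
  s11 := ⟨0, 0, 0, 0⟩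
  g00 := ⟨0, 0, 0, 0⟩
  g01 := ⟨0, 0, 0, 0⟩
  g10 := ⟨0, 0, 0, 0⟩
  g11 := ⟨0, 0, 0, 0⟩
  f00 := ⟨0, 0, 0, 0⟩
  f01 := ⟨0, 0, 0, 0⟩
  f10 := ⟨0, 0, 0, 0⟩
  f11 := ⟨0, 0, 0, 0⟩
  l000 := ⟨3810797269440, 0, 0, 0⟩
  l001 := ⟨14905953344, 0, 0, 0⟩
  l002 := ⟨0, 181060849664, 0, 0⟩
  l010 := ⟨4928356240512, 0, 0, 0⟩
  l011 := ⟨0, 251773308672, 0, 0⟩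
  l020 := ⟨0, 7786479406848, 0, 0⟩
  l100 := ⟨0, 282418258688, 0, 0⟩
  l101 := ⟨0, 37054192768, 0, 0⟩
  l102 := ⟨0, 175915140864, 0, 0⟩
  l110 := ⟨0, 21560155689344, 0, 0⟩
  l111 := ⟨0, 117691543104, 0, 0⟩
  l120 := ⟨0, 46539737415296, 0, 0⟩
  l200 := ⟨0, 2027769555584, 0, 0⟩
  l201 := ⟨88567254464, 0, 0, 0⟩
  l210 := ⟨10445183374272, 0, 0, 0⟩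
  l300 := ⟨3138617074624, 0, 0, 0⟩
  l301 := ⟨0, 75187237376, 0, 0⟩
  l310 := ⟨0, 12982299531584, 0, 0⟩
  l400 := ⟨0, 3981374663168, 0, 0⟩
  l401 := ⟨26691318720, 0, 0, 0⟩
  l410 := ⟨12957036991424, 0, 0, 0⟩
  l500 := ⟨3174036112512, 0, 0, 0⟩
  l600 := ⟨0, 1433753464320, 0, 0⟩
  l700 := ⟨265224507072, 0, 0, 0⟩
  q00 := ⟨12171261376, 0, 0, 0⟩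
  q01 := ⟨584447172352, 0, 0, 0⟩
  q02 := ⟨2086490962880, 0, 0, 0⟩
  q03 := ⟨0, 6808135443968, 0, 0⟩
  q10 := ⟨22116676736, 0, 0, 0⟩
  q11 := ⟨12308672440256, 0, 0, 0⟩
  q12 := ⟨0, 26113328291200, 0, 0⟩
  q20 := ⟨0, 27518324602752, 0, 0⟩
  q21 := ⟨97556401586048, 0, 0, 0⟩
  q30 := ⟨0, 1786560780654656, 0, 0⟩
  n000 := ⟨1100112134144, 0, 0, 0⟩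
  n001 := ⟨0, 6598492160, 0, 0⟩
  n002 := ⟨132322426880, 0, 0, 0⟩
  n010 := ⟨0, 572091400192, 0, 0⟩
  n011 := ⟨247772413952, 0, 0, 0⟩
  n020 := ⟨0, 1596762816512, 0, 0⟩
  n100 := ⟨300440485888, 0, 0, 0⟩
  n101 := ⟨33231667200, 0, 0, 0⟩
  n110 := ⟨6013489184768, 0, 0, 0⟩
  n200 := ⟨989796827136, 0, 0, 0⟩
  n201 := ⟨0, 65999601664, 0, 0⟩
  n210 := ⟨0, 6912200867840, 0, 0⟩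
  n300 := ⟨0, 1840989077504, 0, 0⟩
  n400 := ⟨1333787951104, 0, 0, 0⟩
  n500 := ⟨0, 586385457152, 0, 0⟩
  e00 := ⟨131702587392, 0, 0, 0⟩
  e01 := ⟨410297761792, 0, 0, 0⟩
  e02 := ⟨2201721634816, 0, 0, 0⟩
  e03 := ⟨0, 16637194797056, 0, 0⟩
  e10 := ⟨0, 54461792256, 0, 0⟩
  e11 := ⟨897037828096, 0, 0, 0⟩
  B1 := 0

end Pool.Agent.helper12.KB
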