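import Pool.Agent.helper12.GP.FAP
import Pool.Agent.helper12.GP.FBP
import Pool.Agent.helper12.GP.LBP
import Pool.Agent.helper12.KB.P

/-!
Generated certificates.
-/

namespace Pool.Agent.helper12.KB

open Pool.Agent.helper31.IX (Cov cov_split)
open Pool.Agent.helper12.GP
open Pool.Agent.helper14.QF (cov_E)

mutual
theorem N5B0_t1 : Cov 1 (LB.prog0 p5) [(195850928128, 24052236288), (27487895552, 27487895552), (549755813888, 549755813888)] :=
  cov_E (LB.chkB0_eq p5) (.n 1 (.n 1 (.n 2 (.n 2 .l .l) (.n 2 .l .l)) (.n 2 (.n 2 .l .l) (.n 2 .l .l))) (.n 1 (.n 2 (.n 2 .l .l) (.n 0 (.n 2 .l .l) (.n 2 .l .l))) (.n 2 (.n 2 .l (.n 0 .l .l)) (.n 0 (.n 2 .l .l) (.n 2 .l (.n 0 .l .l))))))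
    [(195850928128, 24052236288), (27487895552, 27487895552), (549755813888, 549755813888)] rfl (by decide +kernel)
theorem N5B0_t5 : Cov 1 (LB.prog0 p5) [(195850928128, 24052236288), (68719738880, 13743947776), (274877906944, 274877906944)] :=
  cov_E (LB.chkB0_eq p5) (.n 2 (.n 2 .l (.n 0 .l .l)) (.n 0 (.n 2 .l .l) (.n 1 .l (.n 0 .l .l))))
    [(195850928128, 24052236288), (68719738880, 13743947776), (274877906944, 274877906944)] rfl (by decide +kernel)
end

mutual
theorem N5B0_t6 : Cov 1 (LB.prog0 p5) [(195850928128, 24052236288), (68719738880, 13743947776), (824633720832, 274877906944)] :=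
  cov_E (LB.chkB0_eq p5) (.n 1 (.n 2 (.n 2 .l (.n 0 .l .l)) (.n 0 (.n 0 .l .l) (.n 2 .l .l))) (.n 0 (.n 2 (.n 2 .l .l) (.n 2 .l .l)) (.n 2 (.n 2 .l .l) (.n 0 (.n 2 .l .l) (.n 2 .l .l)))))
    [(195850928128, 24052236288), (68719738880, 13743947776), (824633720832, 274877906944)] rfl (by decide +kernel)
theorem N5B0_t7 : Cov 1 (LB.prog0 p5) [(183824809984, 12026118144), (96207634432, 13743947776), (549755813888, 549755813888)] :=
  cov_E (LB.chkB0_eq p5) (.n 2 (.n 2 (.n 2 .l .l) (.n 0 (.n 2 .l .l) (.n 2 .l .l))) (.n 1 (.n 2 (.n 2 .l .l) (.n 0 (.n 2 .l .l) (.n 2 .l .l))) (.n 0 (.n 2 (.n 2 .l .l) (.n 2 .l (.n 1 .l .l))) (.n 2 (.n 2 .l .l) (.n 1 (.n 2 .l .l) (.n 2 .l .l))))))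
    [(183824809984, 12026118144), (96207634432, 13743947776), (549755813888, 549755813888)] rfl (by decide +kernel)
end

mutual
theorem N5B0_t9 : Cov 1 (LB.prog0 p5) [(207877046272, 12026118144), (96207634432, 13743947776), (274877906944, 274877906944)] :=
  cov_E (LB.chkB0_eq p5) (.n 2 (.n 2 .l (.n 0 .l .l)) (.n 1 (.n 2 .l .l) (.n 2 .l (.n 0 .l .l))))
    [(207877046272, 12026118144), (96207634432, 13743947776), (274877906944, 274877906944)] rfl (by decide +kernel)
theorem N5B0_t11 : Cov 1 (LB.prog0 p5) [(207877046272, 12026118144), (89335660544, 6871973888), (824633720832, 274877906944)] :=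
  cov_E (LB.chkB0_eq p5) (.n 2 (.n 2 .l (.n 0 .l .l)) (.n 0 (.n 2 .l (.n 0 .l .l)) (.n 1 (.n 2 .l .l) (.n 2 .l .l))))
    [(207877046272, 12026118144), (89335660544, 6871973888), (824633720832, 274877906944)] rfl (by decide +kernel)
end

mutual
theorem N5B0_t12 : Cov 1 (LB.prog0 p5) [(207877046272, 12026118144), (103079608320, 6871973888), (824633720832, 274877906944)] :=
  cov_E (LB.chkB0_eq p5) (.n 1 (.n 2 (.n 2 .l .l) (.n 0 (.n 2 .l .l) (.n 2 .l (.n 0 .l .l)))) (.n 2 (.n 2 .l (.n 0 .l .l)) (.n 2 (.n 2 .l .l) (.n 0 (.n 0 .l .l) (.n 2 .l .l)))))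
    [(207877046272, 12026118144), (103079608320, 6871973888), (824633720832, 274877906944)] rfl (by decide +kernel)
theorem N5B1_t3 : Cov 1 (LB.prog0 p5) [(183824809984, 12026118144), (123694743552, 13744209920), (386547056640, 386547056640)] :=
  cov_E (LB.chkB0_eq p5) (.n 2 (.n 2 (.n 1 .l .l) (.n 2 .l (.n 0 .l .l))) (.n 1 (.n 2 (.n 2 .l .l) (.n 0 (.n 2 .l .l) (.n 2 .l .l))) (.n 2 (.n 2 .l (.n 0 .l .l)) (.n 0 (.n 2 .l .l) (.n 2 .l (.n 0 .l .l))))))
    [(183824809984, 12026118144), (123694743552, 13744209920), (386547056640, 386547056640)] rfl (by decide +kernel)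
end

mutual
theorem N5B1_t5 : Cov 1 (LB.prog0 p5) [(183824809984, 12026118144), (144311058432, 6872104960), (386547056640, 386547056640)] :=
  cov_E (LB.chkB0_eq p5) (.n 2 (.n 2 (.n 0 .l .l) (.n 2 .l .l)) (.n 0 (.n 2 (.n 2 .l .l) (.n 1 (.n 2 .l .l) (.n 2 .l .l))) (.n 2 (.n 2 .l .l) (.n 1 (.n 2 .l .l) (.n 2 .l (.n 0 .l .l))))))
    [(183824809984, 12026118144), (144311058432, 6872104960), (386547056640, 386547056640)] rfl (by decide +kernel)
theorem N5B1_t6 : Cov 1 (LB.prog0 p5) [(183824809984, 12026118144), (158055268352, 6872104960), (386547056640, 386547056640)] :=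
  cov_E (LB.chkB0_eq p5) (.n 2 (.n 2 (.n 2 .l .l) (.n 2 .l (.n 0 .l .l))) (.n 0 (.n 2 (.n 2 .l (.n 0 .l .l)) (.n 2 (.n 2 .l .l) (.n 0 (.n 1 .l .l) (.n 2 .l .l)))) (.n 2 (.n 2 .l (.n 0 .l .l)) (.n 1 (.n 2 .l (.n 0 .l .l)) (.n 2 (.n 0 .l .l) (.n 2 .l .l))))))
    [(183824809984, 12026118144), (158055268352, 6872104960), (386547056640, 386547056640)] rfl (by decide +kernel)
end

mutual
theorem N5B1_t9 : Cov 1 (LB.prog0 p5) [(207877046272, 12026118144), (116822638592, 6872104960), (386547056640, 386547056640)] :=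
  cov_E (LB.chkB0_eq p5) (.n 2 (.n 2 .l (.n 0 .l .l)) (.n 2 (.n 2 .l (.n 0 .l .l)) (.n 0 (.n 2 .l .l) (.n 2 .l (.n 0 .l .l)))))
    [(207877046272, 12026118144), (116822638592, 6872104960), (386547056640, 386547056640)] rfl (by decide +kernel)
theorem N5B1_t10 : Cov 1 (LB.prog0 p5) [(207877046272, 12026118144), (130566848512, 6872104960), (386547056640, 386547056640)] :=
  cov_E (LB.chkB0_eq p5) (.n 2 (.n 2 (.n 0 .l .l) (.n 2 .l .l)) (.n 0 (.n 2 (.n 2 .l .l) (.n 1 (.n 2 .l .l) (.n 2 .l .l))) (.n 2 (.n 2 .l .l) (.n 1 (.n 2 .l .l) (.n 2 .l (.n 0 .l .l))))))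
    [(207877046272, 12026118144), (130566848512, 6872104960), (386547056640, 386547056640)] rfl (by decide +kernel)
end

mutual
theorem N5B1_t11 : Cov 1 (LB.prog0 p5) [(207877046272, 12026118144), (144311058432, 6872104960), (386547056640, 386547056640)] :=
  cov_E (LB.chkB0_eq p5) (.n 2 (.n 2 (.n 2 .l .l) (.n 2 .l (.n 0 .l .l))) (.n 0 (.n 2 (.n 2 .l (.n 0 .l .l)) (.n 1 (.n 2 .l (.n 0 .l .l)) (.n 2 .l (.n 0 .l .l)))) (.n 2 (.n 2 .l (.n 0 .l .l)) (.n 1 (.n 2 .l (.n 0 .l .l)) (.n 2 (.n 0 .l .l) (.n 2 .l .l))))))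
    [(207877046272, 12026118144), (144311058432, 6872104960), (386547056640, 386547056640)] rfl (by decide +kernel)
theorem N5B1_t13 : Cov 1 (LB.prog0 p5) [(207877046272, 12026118144), (158055268352, 6872104960), (193273528320, 193273528320)] :=
  cov_E (LB.chkB0_eq p5) (.n 2 (.n 2 .l .l) (.n 0 (.n 2 .l .l) (.n 2 .l .l)))
    [(207877046272, 12026118144), (158055268352, 6872104960), (193273528320, 193273528320)] rfl (by decide +kernel)
end

mutual
theorem N5B1_t15 : Cov 1 (LB.prog0 p5) [(201863987200, 6013059072), (158055268352, 6872104960), (579820584960, 193273528320)] :=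
  cov_E (LB.chkB0_eq p5) (.n 2 (.n 1 (.n 2 .l .l) (.n 2 .l .l)) (.n 2 (.n 2 .l (.n 0 .l .l)) (.n 1 (.n 2 .l .l) (.n 2 .l (.n 0 .l .l)))))
    [(201863987200, 6013059072), (158055268352, 6872104960), (579820584960, 193273528320)] rfl (by decide +kernel)
theorem N5B1_t16 : Cov 1 (LB.prog0 p5) [(213890105344, 6013059072), (158055268352, 6872104960), (579820584960, 193273528320)] :=
  cov_E (LB.chkB0_eq p5) (.n 2 (.n 2 (.n 0 .l .l) (.n 2 .l .l)) (.n 1 (.n 2 (.n 0 .l .l) (.n 2 .l (.n 0 .l .l))) (.n 2 (.n 2 .l .l) (.n 2 .l (.n 0 .l .l)))))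
    [(213890105344, 6013059072), (158055268352, 6872104960), (579820584960, 193273528320)] rfl (by decide +kernel)
end

mutual
theorem FA_t1 : Cov 1 (FA.prog0 pF) [(195850928128, 24052236288), (13743947776, 13743947776), (549755813888, 549755813888)] :=
  cov_E (FA.chkB0_eq pF) (.n 0 (.n 2 (.n 2 (.n 2 .l .l) (.n 1 .l (.n 0 .l .l))) (.n 1 (.n 2 .l .l) (.n 0 (.n 2 .l .l) (.n 2 .l .l)))) (.n 1 (.n 2 (.n 2 .l .l) (.n 2 .l .l)) (.n 2 (.n 2 .l (.n 0 .l .l)) (.n 0 (.n 2 .l .l) (.n 2 .l .l)))))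
    [(195850928128, 24052236288), (13743947776, 13743947776), (549755813888, 549755813888)] rfl (by decide +kernel)
theorem FA_t3 : Cov 1 (FA.prog0 pF) [(195850928128, 24052236288), (34359869440, 6871973888), (549755813888, 549755813888)] :=
  cov_E (FA.chkB0_eq pF) (.n 2 (.n 2 (.n 2 .l (.n 0 .l .l)) (.n 0 (.n 1 .l .l) (.n 0 .l .l))) (.n 0 (.n 0 (.n 2 .l .l) (.n 2 .l .l)) (.n 0 (.n 2 .l .l) (.n 2 .l .l))))
    [(195850928128, 24052236288), (34359869440, 6871973888), (549755813888, 549755813888)] rfl (by decide +kernel)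
end

mutual
theorem FA_t4 : Cov 1 (FA.prog0 pF) [(195850928128, 24052236288), (48103817216, 6871973888), (549755813888, 549755813888)] :=
  cov_E (FA.chkB0_eq pF) (.n 0 (.n 2 (.n 2 (.n 2 .l .l) (.n 2 .l .l)) (.n 1 (.n 2 .l .l) (.n 2 .l .l))) (.n 2 (.n 2 (.n 2 .l .l) (.n 1 .l .l)) (.n 1 (.n 2 .l .l) (.n 2 .l .l))))
    [(195850928128, 24052236288), (48103817216, 6871973888), (549755813888, 549755813888)] rfl (by decide +kernel)
theorem FB_t3 : Cov 1 (FB.prog0 pF) [(183824809984, 12026118144), (41231843328, 41231843328), (549755813888, 549755813888)] :=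
  cov_E (FB.chkB0_eq pF) (.n 1 (.n 1 (.n 2 (.n 2 .l .l) (.n 1 .l .l)) (.n 2 (.n 2 .l .l) (.n 2 .l .l))) (.n 2 (.n 2 .l (.n 0 .l .l)) (.n 1 (.n 2 .l .l) (.n 2 .l .l))))
    [(183824809984, 12026118144), (41231843328, 41231843328), (549755813888, 549755813888)] rfl (by decide +kernel)
end

mutual
theorem FB_t4 : Cov 1 (FB.prog0 pF) [(183824809984, 12026118144), (123695529984, 41231843328), (549755813888, 549755813888)] :=
  cov_E (FB.chkB0_eq pF) (.n 1 (.n 1 (.n 2 (.n 2 .l .l) (.n 2 .l .l)) (.n 2 (.n 2 .l .l) (.n 2 .l (.n 0 .l .l)))) (.n 1 (.n 2 (.n 2 .l .l) (.n 2 .l (.n 0 .l .l))) (.n 2 (.n 2 .l .l) (.n 0 (.n 2 .l .l) (.n 2 .l .l)))))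
    [(183824809984, 12026118144), (123695529984, 41231843328), (549755813888, 549755813888)] rfl (by decide +kernel)
theorem FB_t5 : Cov 1 (FB.prog0 pF) [(207877046272, 12026118144), (41231843328, 41231843328), (549755813888, 549755813888)] :=
  cov_E (FB.chkB0_eq pF) (.n 1 (.n 1 (.n 2 (.n 2 .l .l) (.n 2 .l .l)) (.n 2 (.n 2 .l .l) (.n 2 .l .l))) (.n 1 (.n 2 (.n 2 .l .l) (.n 2 .l .l)) (.n 2 (.n 2 .l .l) (.n 2 .l .l))))
    [(207877046272, 12026118144), (41231843328, 41231843328), (549755813888, 549755813888)] rfl (by decide +kernel)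
theorem FB_t6 : Cov 1 (FB.prog0 pF) [(207877046272, 12026118144), (123695529984, 41231843328), (549755813888, 549755813888)] :=
  cov_E (FB.chkB0_eq pF) (.n 1 (.n 1 (.n 2 (.n 2 .l .l) (.n 2 .l (.n 0 .l .l))) (.n 2 (.n 2 .l .l) (.n 0 (.n 2 .l .l) (.n 2 .l .l)))) (.n 2 (.n 2 (.n 1 .l .l) (.n 2 .l .l)) (.n 0 (.n 1 (.n 2 .l .l) (.n 2 .l .l)) (.n 1 (.n 2 .l .l) (.n 2 .l .l)))))
    [(207877046272, 12026118144), (123695529984, 41231843328), (549755813888, 549755813888)] rfl (by decide +kernel)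
end

theorem N5B0_t3 : Cov 1 (LB.prog0 p5) [(195850928128, 24052236288), (68719738880, 13743947776), (549755813888, 549755813888)] :=
  cov_split 2 (by decide +kernel) N5B0_t5 N5B0_t6

theorem N5B0_t10 : Cov 1 (LB.prog0 p5) [(207877046272, 12026118144), (96207634432, 13743947776), (824633720832, 274877906944)] :=
  cov_split 1 (by decide +kernel) N5B0_t11 N5B0_t12

theorem N5B0_t8 : Cov 1 (LB.prog0 p5) [(207877046272, 12026118144), (96207634432, 13743947776), (549755813888, 549755813888)] :=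
  cov_split 2 (by decide +kernel) N5B0_t9 N5B0_t10

theorem N5B0_t4 : Cov 1 (LB.prog0 p5) [(195850928128, 24052236288), (96207634432, 13743947776), (549755813888, 549755813888)] :=
  cov_split 0 (by decide +kernel) N5B0_t7 N5B0_t8

theorem N5B0_t2 : Cov 1 (LB.prog0 p5) [(195850928128, 24052236288), (82463686656, 27487895552), (549755813888, 549755813888)] :=
  cov_split 1 (by decide +kernel) N5B0_t3 N5B0_t4

theorem N5B0 : Cov 1 (LB.prog0 p5) [(195850928128, 24052236288), (54975791104, 54975791104), (549755813888, 549755813888)] :=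
  cov_split 1 (by decide +kernel) N5B0_t1 N5B0_t2

theorem N5B1_t4 : Cov 1 (LB.prog0 p5) [(183824809984, 12026118144), (151183163392, 13744209920), (386547056640, 386547056640)] :=
  cov_split 1 (by decide +kernel) N5B1_t5 N5B1_t6

theorem N5B1_t1 : Cov 1 (LB.prog0 p5) [(183824809984, 12026118144), (137438953472, 27488419840), (386547056640, 386547056640)] :=
  cov_split 1 (by decide +kernel) N5B1_t3 N5B1_t4

theorem N5B1_t7 : Cov 1 (LB.prog0 p5) [(207877046272, 12026118144), (123694743552, 13744209920), (386547056640, 386547056640)] :=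
  cov_split 1 (by decide +kernel) N5B1_t9 N5B1_t10

theorem N5B1_t14 : Cov 1 (LB.prog0 p5) [(207877046272, 12026118144), (158055268352, 6872104960), (579820584960, 193273528320)] :=
  cov_split 0 (by decide +kernel) N5B1_t15 N5B1_t16

theorem N5B1_t12 : Cov 1 (LB.prog0 p5) [(207877046272, 12026118144), (158055268352, 6872104960), (386547056640, 386547056640)] :=
  cov_split 2 (by decide +kernel) N5B1_t13 N5B1_t14

theorem N5B1_t8 : Cov 1 (LB.prog0 p5) [(207877046272, 12026118144), (151183163392, 13744209920), (386547056640, 386547056640)] :=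
  cov_split 1 (by decide +kernel) N5B1_t11 N5B1_t12

theorem N5B1_t2 : Cov 1 (LB.prog0 p5) [(207877046272, 12026118144), (137438953472, 27488419840), (386547056640, 386547056640)] :=
  cov_split 1 (by decide +kernel) N5B1_t7 N5B1_t8

theorem N5B1 : Cov 1 (LB.prog0 p5) [(195850928128, 24052236288), (137438953472, 27488419840), (386547056640, 386547056640)] :=
  cov_split 0 (by decide +kernel) N5B1_t1 N5B1_t2

theorem FA_t2 : Cov 1 (FA.prog0 pF) [(195850928128, 24052236288), (41231843328, 13743947776), (549755813888, 549755813888)] :=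
  cov_split 1 (by decide +kernel) FA_t3 FA_t4

theorem FA : Cov 1 (FA.prog0 pF) [(195850928128, 24052236288), (27487895552, 27487895552), (549755813888, 549755813888)] :=
  cov_split 1 (by decide +kernel) FA_t1 FA_t2

theorem FB_t1 : Cov 1 (FB.prog0 pF) [(183824809984, 12026118144), (82463686656, 82463686656), (549755813888, 549755813888)] :=
  cov_split 1 (by decide +kernel) FB_t3 FB_t4

theorem FB_t2 : Cov 1 (FB.prog0 pF) [(207877046272, 12026118144), (82463686656, 82463686656), (549755813888, 549755813888)] :=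
  cov_split 1 (by decide +kernel) FB_t5 FB_t6

theorem FB : Cov 1 (FB.prog0 pF) [(195850928128, 24052236288), (82463686656, 82463686656), (549755813888, 549755813888)] :=
  cov_split 0 (by decide +kernel) FB_t1 FB_t2

end Pool.Agent.helper12.KB
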