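import Pool.Agent.helper12.GP.Pc
import Pool.Agent.helper12.GP.AgB
import Pool.Agent.helper14.NR.E5a.Tab
import Pool.Agent.helper12.KB.C0
import Pool.Agent.helper12.KB.C1
import Pool.Agent.helper12.KB.C2
import Pool.Agent.helper12.KB.C3

/-!
Generated: the corner of the table E5a.
-/

namespace Pool.Agent.helper12.KB

open Complex
open Pool.Agent.helper31.IX (Cov cov_split)
open Pool.Agent.helper12.GP Pool.Agent.helper12.RS Pool.Agent.helper63.NF
open Pool.Agent.helper14.NR.E5a (tab)

theorem c_ok : corOk tab = true := by decide +kernel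

theorem l_ok : tab.Okl := TD.okl_of (by decide +kernel)

theorem no_pol : tab.pol = none := rfl

theorem cc0 : CC (MA.prog0 p0) (MB.prog0 p0) 195850928128 24052236288 (3 / 20) :=
  cc15 N0A N0B0 N0B1

theorem ag0 : agZ1 tab 0 p0 = true := by decide +kernel

theorem cc1 : CC (MA.prog0 p1) (MB.prog0 p1) 195850928128 24052236288 (3 / 20) :=
  cc15 N1A N1B0 N1B1

theorem ag1 : agZ1 tab 1 p1 = true := by decide +kernel

theorem cc2 : CC (MA.prog0 p2) (MB.prog0 p2) 195850928128 24052236288 (3 / 20) :=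
  cc15 N2A N2B0 N2B1

theorem ag2 : agZ1 tab 2 p2 = true := by decide +kernel

theorem cc3 : CC (MA.prog0 p3) (MB.prog0 p3) 195850928128 24052236288 (3 / 20) :=
  cc15 N3A N3B0 N3B1

theorem ag3 : agZ1 tab 3 p3 = true := by decide +kernel

theorem cc4 : CC (MA.prog0 p4) (MB.prog0 p4) 195850928128 24052236288 (3 / 20) :=
  cc15 N4A N4B0 N4B1

theorem ag4 : agZ1 tab 4 p4 = true := by decide +kernel

theorem cc5 : CC (LA.prog0 p5) (LB.prog0 p5) 195850928128 24052236288 (3 / 20) :=
  cc15 N5A N5B0 N5B1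

theorem ag5 : agZ tab 5 p5 = true := by decide +kernel

theorem al : agL tab p5 = true := by decide +kernel

theorem cf : CF (FA.prog0 pF) (FB.prog0 pF) 195850928128 24052236288 (3 / 20) := cf15 FA FB

theorem agf : agF tab pF = true := by decide +kernel

/-- **the corner** -/
theorem corner {e κ x0 : ℝ} (h0 : 5 ≤ e) (h1 : e ≤ (32 / 5 : ℝ)) (hκ : 0 < κ) (hb : e * κ / 2 ≤ 3 / 20)
    (hS : SF tab 7 e κ x0) : Corner tab 7 e κ (1 / 8) (1 / 20) := by
  have he : 4 ≤ e := by linarith
  have hep : |1 / e - ((195850928128 : ℕ) : ℝ) / 2 ^ 40| ≤ ((24052236288 : ℕ) : ℝ) / 2 ^ 40 :=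
    epc (by norm_num) h0 h1 (by norm_num) (by norm_num)
  refine corner_of ?_ ?_ ?_
  · intro m hm arc
    obtain rfl | rfl | rfl | rfl | rfl : m = 0 ∨ m = 1 ∨ m = 2 ∨ m = 3 ∨ m = 4 := by omega
    · exact pc_midT cc0 c_ok no_pol (agZ1_of ag0) he hκ (by linarith) hb hep hS hm (by norm_num; linarith) arc
    · exact pc_midT cc1 c_ok no_pol (agZ1_of ag1) he hκ (by linarith) hb hep hS hm (by norm_num; linarith) arc
    · exact pc_midT cc2 c_ok no_pol (agZ1_of ag2) he hκ (by linarith) hb hep hS hm (by norm_num; linarith) arc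
    · exact pc_midT cc3 c_ok no_pol (agZ1_of ag3) he hκ (by linarith) hb hep hS hm (by norm_num; linarith) arc
    · exact pc_midT cc4 c_ok no_pol (agZ1_of ag4) he hκ (by linarith) hb hep hS hm (by norm_num; linarith) arc
  · intro m hm arc
    obtain rfl : m = 5 := by omega
    exact pc_lastT cc5 c_ok l_ok no_pol (agZ_of ag5) (agL_of al) he hκ (by linarith) hb hep hS hm (by norm_num; linarith) arc
  · exact pc_zeroT cf c_ok no_pol (agF_of agf) he hκ hb hep hS (by norm_num)

end Pool.Agent.helper12.KB
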